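import Pool.Agent.Q214.BD2.B

set_option autoImplicit false

/-!
A Borel directed graph of out-degree at most two and finite Borel chromatic number, in which every
Borel set within directed distance one of every vertex has Borel chromatic number at least three.
-/

namespace Pool.Agent.Results.MP_b8e903_lc.NoBipartiteDominatingSet

open Pool.Agent.Q214.BD2

/-- The Borel chromatic number of the graph underlying `D` is at most `k`. -/
def BorelColourable {X : Type} [MeasurableSpace X] (D : X → X → Prop) (k : ℕ) : Prop :=
  ∃ c : X → Fin k, Measurable c ∧ ∀ x y, D x y → c x ≠ c y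

/-- The directed graph induced on a set of vertices. -/
def induced {X : Type} (D : X → X → Prop) (M : Set X) (x y : M) : Prop := D x y

/-- There is a Borel directed graph `D` (irreflexive, Borel set of arcs, every vertex has only
finitely many neighbours) on a standard Borel space, with finite Borel chromatic number (at most 5)
and out-degree at most 2, such that no Borel set `M` with `ρ(x, M) ≤ 1` for all `x` (every vertex
is in `M` or has an out-neighbour in `M`) induces a graph of Borel chromatic number at most 2. -/
theorem result : ∃ (X : Type) (_ : MeasurableSpace X) (_ : StandardBorelSpace X)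
    (D : X → X → Prop), (∀ x, ¬ D x x) ∧ MeasurableSet {p : X × X | D p.1 p.2} ∧
      (∀ x, {y | D x y ∨ D y x}.Finite) ∧ BorelColourable D 5 ∧ (∀ x, {y | D x y}.encard ≤ 2) ∧
      ∀ M : Set X, MeasurableSet M → (∀ x, x ∈ M ∨ ∃ y ∈ M, D x y) →
        ¬ BorelColourable (induced D M) 2 := by
  classical
  refine ⟨V, inferInstance, inferInstance, D, fun x h => D_label h rfl, ?_, fun x => ?_,
    ⟨fun x => x.1, measurable_fst, fun x y h => D_label h⟩, fun x => ?_, ?_⟩
  · have h1 : ∀ f : V → V, Measurable f →
        MeasurableSet {p : V × V | p.2 = f p.1 ∧ (f p.1).1 ≠ p.1.1} := fun f hf =>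
      (measurableSet_eq_fun measurable_snd (hf.comp measurable_fst)).inter
        (measurableSet_eq_fun (measurable_fst.comp (hf.comp measurable_fst))
          (measurable_fst.comp measurable_fst)).compl
    exact (h1 fa measurable_fa).union (h1 fb measurable_fb)
  · refine (Set.toFinite {fa x, fb x, fa (fa x), fb (fb x)}).subset ?_
    rintro y (h | h)
    · rcases h with ⟨rfl, -⟩ | ⟨rfl, -⟩ <;> simp
    · rcases h with ⟨rfl, -⟩ | ⟨rfl, -⟩
      · have := fa3 y
        simp only [Set.mem_insert_iff, Set.mem_singleton_iff]
        exact Or.inr (Or.inr (Or.inl this.symm))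
      · have := fb3 y
        simp only [Set.mem_insert_iff, Set.mem_singleton_iff]
        exact Or.inr (Or.inr (Or.inr this.symm))
  · have hsub : {y | D x y} ⊆ {fa x, fb x} := by
      rintro y (⟨rfl, -⟩ | ⟨rfl, -⟩) <;> simp
    exact (Set.encard_le_encard hsub).trans (Set.encard_insert_le _ _ |>.trans (by
      rw [Set.encard_singleton]; norm_num))
  · rintro M hM hdom ⟨col, hcol, hcol2⟩
    let c : V → Fin 3 := fun x => if h : x ∈ M then (if col ⟨x, h⟩ = 0 then 1 else 2) else 0
    have hc : Measurable c := by
      refine Measurable.dite (s := M) (f := fun x : M => if col x = 0 then (1 : Fin 3) else 2)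
        (g := fun _ => 0) ?_ measurable_const hM
      exact (measurable_from_top (f := fun t : Fin 2 => if t = 0 then (1 : Fin 3) else 2)).comp hcol
    have hc0 : ∀ x, c x = 0 ↔ x ∉ M := by
      intro x
      by_cases h : x ∈ M
      · simp only [c, h, dif_pos, not_true_eq_false, iff_false]
        split_ifs <;> decide
      · simp [c, h]
    refine no_labelling c hc (fun x hx => ?_) (fun x y hD hx hxy => ?_)
    · rcases hdom x with h | ⟨y, hy, hD⟩
      · exact absurd h ((hc0 x).1 hx)
      · exact ⟨y, hD, fun h => (hc0 y).1 h hy⟩
    · have hxM : x ∈ M := by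
        by_contra h
        exact hx ((hc0 x).2 h)
      have hyM : y ∈ M := by
        by_contra h
        exact hx (by rw [← hxy]; exact (hc0 y).2 h)
      have h1 := hcol2 ⟨x, hxM⟩ ⟨y, hyM⟩ hD
      apply h1
      have f2 : ∀ t : Fin 2, t = 0 ∨ t = 1 := by decide
      simp only [c, hxM, hyM, dif_pos] at hxy
      rcases f2 (col ⟨x, hxM⟩) with h | h <;> rcases f2 (col ⟨y, hyM⟩) with h' | h' <;>
        simp_all

end Pool.Agent.Results.MP_b8e903_lc.NoBipartiteDominatingSet
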